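import Pool.Agent.H3.BES.Targets

/-!
# Partial fractions
-/

set_option autoImplicit false

open Finset

namespace Pool.Agent.H4.BES

open Pool.Agent.H3.BES

theorem clu_PFR : T_PFR := by
  classical
  intro s c hs hlt p hp
  have hne : ∀ q ∈ s, (q : ℝ) ≠ 0 := fun q hq => by exact_mod_cast (hs q hq).ne_zero
  have hM : ∀ q ∈ s, (∏ r ∈ s, (r : ℝ)) = q * ∏ r ∈ s.erase q, (r : ℝ) := fun q hq =>
    (Finset.mul_prod_erase s (fun r : ℕ => (r : ℝ)) hq).symm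
  have hN : (((∑ q ∈ s, c q * ∏ r ∈ s.erase q, (r : ℤ) : ℤ)) : ℝ) =
      (∑ q ∈ s, (c q : ℝ) / q) * ∏ r ∈ s, (r : ℝ) := by
    rw [Finset.sum_mul]
    push_cast
    refine Finset.sum_congr rfl fun q hq => ?_
    rw [hM q hq]
    have h1 := hne q hq
    field_simp
  have habs : |(((∑ q ∈ s, c q * ∏ r ∈ s.erase q, (r : ℤ) : ℤ)) : ℝ)| < 1 := by
    rw [hN, abs_mul]
    have h1 : |∏ r ∈ s, (r : ℝ)| = ∏ r ∈ s, (r : ℝ) :=
      abs_of_nonneg (Finset.prod_nonneg fun r _ => Nat.cast_nonneg r)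
    rw [h1]
    exact hlt
  have hz : (∑ q ∈ s, c q * ∏ r ∈ s.erase q, (r : ℤ)) = 0 := by
    rw [← Int.abs_lt_one_iff]
    exact_mod_cast habs
  rw [← Finset.add_sum_erase s _ hp] at hz
  have hd : (p : ℤ) ∣ ∑ q ∈ s.erase p, c q * ∏ r ∈ s.erase q, (r : ℤ) := by
    refine Finset.dvd_sum fun q hq => Dvd.dvd.mul_left ?_ _
    refine Finset.dvd_prod_of_mem (fun r : ℕ => (r : ℤ)) ?_
    exact Finset.mem_erase.2 ⟨(Finset.ne_of_mem_erase hq).symm, hp⟩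
  have hd2 : (p : ℤ) ∣ c p * ∏ r ∈ s.erase p, (r : ℤ) := by
    have h1 : c p * ∏ r ∈ s.erase p, (r : ℤ) =
        -∑ q ∈ s.erase p, c q * ∏ r ∈ s.erase q, (r : ℤ) := by linarith
    rw [h1]
    exact (dvd_neg).2 hd
  have hpp : Prime (p : ℤ) := Nat.prime_iff_prime_int.1 (hs p hp)
  rcases hpp.dvd_or_dvd hd2 with h | h
  · exact h
  · exfalso
    obtain ⟨q, hq, hpq⟩ := (hpp.dvd_finset_prod_iff _).1 h
    have h1 : p ∣ q := by exact_mod_cast hpq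
    have h2 := (Nat.prime_dvd_prime_iff_eq (hs p hp) (hs q (Finset.mem_of_mem_erase hq))).1 h1
    exact Finset.ne_of_mem_erase hq h2.symm

end Pool.Agent.H4.BES
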